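import Mathlib

/-!
Linear data of a group of nilpotency class two: the abelian groups `G / [G, G]` and `[G, G]`, the
commutator map and the power maps.
-/

namespace Pool.Agent.P.MP_0b48ca_al.Ans

open scoped commutatorElement

universe u

/-- The isomorphisms `γ : G / [G, G] → H / [H, H]` and `η : [G, G] → [H, H]` are compatible with
the commutator maps and with the power maps `x ↦ x ^ n` modulo `n`-th powers of the commutator
subgroup. -/
def LinIso {G H : Type u} [Group G] [Group H] (γ : Abelianization G ≃* Abelianization H)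
    (η : commutator G ≃* commutator H) : Prop :=
  ∀ (x : G) (x' : H) (w : commutator G), γ (Abelianization.of x) = Abelianization.of x' →
    (∀ (y : G) (y' : H), γ (Abelianization.of y) = Abelianization.of y' → w.1 = ⁅x, y⁆ →
      (η w).1 = ⁅x', y'⁆) ∧
    ∀ n : ℕ, w.1 = x ^ n → ∃ v : commutator H, (η w).1 = x' ^ n * v.1 ^ n

/-- The height condition: an element `w` of `[G, G]` is a commutator `[x, y]` as soon as `w ^ k` is
an `n`-th power in `[G, G]` whenever `x ^ k` is an `n`-th power modulo `[G, G]`. -/
def HeightCamina (G : Type u) [Group G] : Prop :=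
  ∀ x : G, ∀ w ∈ commutator G,
    (∀ k n : ℕ, (∃ g : G, x ^ k * (g ^ n)⁻¹ ∈ commutator G) →
      ∃ v ∈ commutator G, w ^ k = v ^ n) → ∃ y : G, w = ⁅x, y⁆

end Pool.Agent.P.MP_0b48ca_al.Ans
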