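import Pool.Agent.P.MP_0b48ca_al.Crit.Main
import Pool.Agent.P.MP_0b48ca_al.Ans.Defs

/-! Isomorphisms of groups of class two and isomorphisms of their linear data. -/

namespace Pool.Agent.P.MP_0b48ca_al.Ans

open Abelianization Crit
open scoped commutatorElement

universe u

variable {G H : Type u} [Group G] [Group H]

theorem map_mem_comm (α : G →* H) {w : G} (hw : w ∈ commutator G) : α w ∈ commutator H := by
  rw [← of_eq_one, ← map_of, of_eq_one.2 hw, map_one]

theorem descend [Two H] (α : G ≃* H) :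
    ∃ γ η, LinIso (G := G) (H := H) γ η ∧ ∀ x, γ (of x) = of (α x) := by
  let η : commutator G ≃* commutator H :=
    { toFun := fun w => ⟨α w, map_mem_comm α.toMonoidHom w.2⟩
      invFun := fun w => ⟨α.symm w, map_mem_comm α.symm.toMonoidHom w.2⟩
      left_inv := fun w => Subtype.ext (α.symm_apply_apply _)
      right_inv := fun w => Subtype.ext (α.apply_symm_apply _)
      map_mul' := fun a b => Subtype.ext (map_mul α _ _) }
  refine ⟨α.abelianizationCongr, η, fun x x' w hx => ⟨fun y y' hy hw => ?_, fun n hw => ?_⟩,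
    fun x => rfl⟩
  · change α w = _
    rw [abelianizationCongr_of] at hx hy
    rw [hw, map_commutatorElement, ← om_of, hx, hy, om_of]
  · rw [abelianizationCongr_of] at hx
    have h1 : x'⁻¹ * α x ∈ commutator H := by
      rw [← of_eq_one, map_mul, map_inv, hx, inv_mul_cancel]
    refine ⟨⟨_, h1⟩, ?_⟩
    change α w = x' ^ n * (x'⁻¹ * α x) ^ n
    rw [← Commute.mul_pow (cen h1 x'), mul_inv_cancel_left, hw, map_pow]

theorem lift_iso [Finite G] [Finite H] [Two G] [Two H] {γ : Abelianization G ≃* Abelianization H}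
    {η : commutator G ≃* commutator H} (h : LinIso γ η) :
    ∃ α : G ≃* H, ∀ x, of (α x) = γ (of x) := by
  let F : Subgroup (G × H) := MonoidHom.eqLocus
    ((γ.toMonoidHom.comp of).comp (MonoidHom.fst G H)) (of.comp (MonoidHom.snd G H))
  have hF : ∀ z : G × H, z ∈ F ↔ γ (of z.1) = of z.2 := fun z => Iff.rfl
  let j : commutator G × commutator H →* F :=
    ((commutator G).subtype.prodMap (commutator H).subtype).codRestrict F (fun w => by
      rw [hF]
      change γ (of (w.1 : G)) = of (w.2 : H)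
      rw [of_eq_one.2 w.1.2, of_eq_one.2 w.2.2, map_one])
  let δ : commutator G →* F := j.comp ((MonoidHom.id _).prod η.toMonoidHom)
  have hδ : commutator F ≤ δ.range := by
    rw [commutator_eq_closure, Subgroup.closure_le]
    rintro _ ⟨a, b, rfl⟩
    refine ⟨⟨⁅a.1.1, b.1.1⁆, comm_mem _ _⟩, Subtype.ext (Prod.ext rfl ?_)⟩
    exact (h a.1.1 a.1.2 ⟨_, comm_mem _ _⟩ a.2).1 b.1.1 b.1.2 b.2 rfl
  let φ : commutator G × commutator H →* commutator H :=
    (η.toMonoidHom.comp (MonoidHom.fst _ _))⁻¹ * MonoidHom.snd _ _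
  have hφ : ∀ w, φ w = (η w.1)⁻¹ * w.2 := fun w => rfl
  obtain ⟨Φ, hΦ⟩ := ext_height (of.comp j) φ (by
    rintro n - w ⟨a, ha⟩
    obtain ⟨z, rfl⟩ := of_surj a
    have h1 : (j w)⁻¹ * z ^ n ∈ commutator F := by
      rw [← of_eq_one, map_mul, map_inv, map_pow, ← ha]; simp
    obtain ⟨v, hv⟩ := hδ h1
    have h2 : (v : G) = (w.1 : G)⁻¹ * z.1.1 ^ n := congrArg (fun t : F => t.1.1) hv
    have h3 : (η v : H) = (w.2 : H)⁻¹ * z.1.2 ^ n := congrArg (fun t : F => t.1.2) hv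
    obtain ⟨u, hu⟩ := (h z.1.1 z.1.2 (w.1 * v) z.2).2 n (by
      rw [Subgroup.coe_mul, h2, mul_inv_cancel_left])
    refine ⟨u⁻¹, ?_⟩
    have h4 : η w.1 * η v = w.2 * η v * u ^ n := Subtype.ext (by
      rw [← map_mul, hu, Subgroup.coe_mul, Subgroup.coe_mul, h3, mul_inv_cancel_left,
        Subgroup.coe_pow])
    rw [mul_right_comm, mul_left_inj] at h4
    rw [hφ, h4, inv_pow, mul_inv_rev, inv_mul_cancel_right])
  let ρ : F →* commutator H := Φ.comp of
  have hρ : ∀ w, ρ (j w) = (η w.1)⁻¹ * w.2 := hΦ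
  let σ : F →* H := MonoidHom.mk' (fun z => z.1.2 * (ρ z : H)⁻¹) (fun a b => by
    have h1 := cen (Subgroup.inv_mem _ (ρ a).2)
    rw [map_mul]
    change a.1.2 * b.1.2 * ((ρ a : H) * ρ b)⁻¹ = _
    rw [mul_inv_rev, mul_assoc a.1.2 (ρ a : H)⁻¹, ← h1]
    simp only [mul_assoc])
  have hσ : ∀ w, σ (j w) = η w.1 := fun w => by
    change (w.2 : H) * (ρ (j w) : H)⁻¹ = _
    rw [hρ, Subgroup.coe_mul, mul_inv_rev, mul_inv_cancel_left, Subgroup.coe_inv, inv_inv]
  have hσ' : ∀ z : F, of (σ z) = γ (of z.1.1) := fun z => by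
    change of (z.1.2 * (ρ z : H)⁻¹) = _
    rw [map_mul, map_inv, of_eq_one.2 (ρ z).2, inv_one, mul_one]
    exact z.2.symm
  let pr : F →* G := (MonoidHom.fst G H).comp F.subtype
  have hpr : Function.Surjective pr := fun x => by
    obtain ⟨x', hx'⟩ := of_surj (γ (of x))
    exact ⟨⟨(x, x'), hx'.symm⟩, rfl⟩
  have hj : ∀ z : F, z.1.1 ∈ commutator G → ∃ w, j w = z := fun z hz => by
    have h1 : z.1.2 ∈ commutator H := by
      rw [← of_eq_one, ← (hF _).1 z.2, of_eq_one.2 hz, map_one]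
    exact ⟨(⟨_, hz⟩, ⟨_, h1⟩), rfl⟩
  have hker : pr.ker ≤ σ.ker := fun z hz => by
    have hz : z.1.1 = 1 := hz
    obtain ⟨w, rfl⟩ := hj z (hz ▸ Subgroup.one_mem _)
    have : w.1 = 1 := Subtype.ext hz
    rw [MonoidHom.mem_ker, hσ, this, map_one, Subgroup.coe_one]
  let α : G →* H := pr.liftOfSurjective hpr ⟨σ, hker⟩
  have hα : ∀ z, α (pr z) = σ z := fun z => pr.liftOfRightInverse_comp_apply _ _ _ z
  refine ⟨MulEquiv.ofBijective α ⟨(injective_iff_map_eq_one α).2 fun x hx => ?_, fun y => ?_⟩,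
    fun x => ?_⟩
  · obtain ⟨z, rfl⟩ := hpr x
    rw [hα] at hx
    have h1 := hσ' z
    rw [hx, map_one, eq_comm, γ.map_eq_one_iff, of_eq_one] at h1
    obtain ⟨w, rfl⟩ := hj z h1
    rw [hσ, OneMemClass.coe_eq_one, η.map_eq_one_iff] at hx
    exact congrArg Subtype.val hx
  · obtain ⟨x, hx⟩ := of_surj (γ.symm (of y))
    let z : F := ⟨(x, y), by rw [hF, hx, MulEquiv.apply_symm_apply]⟩
    refine ⟨pr (z * j (η.symm (ρ z), 1)), ?_⟩
    rw [hα, map_mul, hσ, MulEquiv.apply_symm_apply]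
    exact inv_mul_cancel_right _ _
  · obtain ⟨z, rfl⟩ := hpr x
    change of (α (pr z)) = _
    rw [hα, hσ']
    rfl

theorem iso_iff [Finite G] [Finite H] [Two G] [Two H] :
    Nonempty (G ≃* H) ↔ ∃ γ η, LinIso (G := G) (H := H) γ η :=
  ⟨fun ⟨α⟩ => let ⟨γ, η, h, _⟩ := descend α; ⟨γ, η, h⟩,
    fun ⟨_, _, h⟩ => let ⟨α, _⟩ := lift_iso h; ⟨α⟩⟩

variable [Finite G] [Two G]

theorem rigid_of_cp (h : CP G) (γ η) (hl : LinIso (G := G) (H := G) γ η) (a : Abelianization G) :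
    γ a = a := by
  obtain ⟨α, hα⟩ := lift_iso hl
  obtain ⟨x, rfl⟩ := of_surj a
  obtain ⟨c, hc⟩ := isConj_iff.1 (h α x)
  rw [← hα, ← hc, map_mul, map_mul, map_inv, mul_inv_cancel_comm]

omit [Finite G] in
theorem char_of_lin (h : ∀ γ η, LinIso (G := G) (H := G) γ η → ∀ a, γ a ∈ Subgroup.zpowers a)
    (N : Subgroup G) (hN : commutator G ≤ N) : N.Characteristic := by
  rw [Subgroup.characteristic_iff_le_comap]
  intro α x hx
  obtain ⟨γ, η, hl, hγ⟩ := descend α
  obtain ⟨k, hk⟩ := h γ η hl (of x)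
  have h1 : (x ^ k)⁻¹ * α x ∈ commutator G := by
    rw [← of_eq_one, map_mul, map_inv, map_zpow, ← hγ, ← hk, inv_mul_cancel]
  exact (Subgroup.mul_mem_cancel_left N (N.inv_mem (N.zpow_mem hx k))).1 (hN h1)

omit [Finite G] in
theorem cp_of_rigid (hH : HomCam G) (h : ∀ γ η, LinIso (G := G) (H := G) γ η → ∀ a, γ a = a) :
    CP G := by
  intro α
  obtain ⟨γ, η, hl, hγ⟩ := descend α
  have hmem : ∀ x, x⁻¹ * α x ∈ commutator G := fun x => by
    rw [← of_eq_one, map_mul, map_inv, ← hγ, h γ η hl, inv_mul_cancel]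
  let f : G →* commutator G := MonoidHom.mk' (fun x => ⟨x⁻¹ * α x, hmem x⟩) (fun x y => by
    apply Subtype.ext
    change (x * y)⁻¹ * α (x * y) = x⁻¹ * α x * (y⁻¹ * α y)
    rw [← mul_assoc, ← cen (hmem x), map_mul, mul_inv_rev]
    simp only [mul_assoc])
  intro x
  obtain ⟨y, hy⟩ := hH (lift f) x
  have : α x = x * ⁅x, y⁆ := by
    rw [← hy]
    exact (mul_inv_cancel_left _ _).symm
  rw [this]
  exact (isConj_iff_comm _ _).2 ⟨y, rfl⟩

end Pool.Agent.P.MP_0b48ca_al.Ans
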